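import Pool.Agent.U875.SP.Tree

/-!
# Distances in an embedded cubic tree
-/

set_option autoImplicit false
set_option linter.unusedSectionVars false

namespace Pool.Agent.U875.SW

open Finset Pool.Agent.Y335.FL Pool.Agent.U875.SP

variable {V : Type} [DecidableEq V] [Fintype V] {G : SimpleGraph V}

/-- the cubic tree is mapped without backtracking -/
structure Emb (G : SimpleGraph V) (f : List (Fin 3) → V) : Prop where
  adj : ∀ w c, IsVertex (w ++ [c]) → G.Adj (f w) (f (w ++ [c]))
  two : ∀ w c c', IsVertex (w ++ [c] ++ [c']) → f w ≠ f (w ++ [c] ++ [c'])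
  ne : ∀ w c c', IsVertex (w ++ [c]) → IsVertex (w ++ [c']) → c ≠ c' →
    f (w ++ [c]) ≠ f (w ++ [c'])

theorem emb_path (h12 : ∀ (w : V) (c : G.Walk w w), c.IsCycle → 12 ≤ c.length)
    {f : List (Fin 3) → V} (h : Emb G f) (a b : List (Fin 3)) (ha : IsVertex a) (hb : IsVertex b)
    (hd : treeDistance a b ≤ 11) :
    ∃ p : G.Walk (f a) (f b), p.IsPath ∧ p.length = treeDistance a b := by
  obtain ⟨c, a', b', rfl, rfl, hc, hhd⟩ := split a b
  have hdT : treeDistance (c ++ a') (c ++ b') = a'.length + b'.length := by
    unfold treeDistance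
    rw [← hc, List.length_append, List.length_append]
    omega
  have hpre : ∀ (a' : List (Fin 3)) (i : ℕ), IsVertex (c ++ a') → IsVertex (c ++ a'.take i) := by
    intro a' i ha
    have h1 : c ++ a' = (c ++ a'.take i) ++ a'.drop i := by
      rw [List.append_assoc, List.take_append_drop]
    rw [h1] at ha
    exact ha.left
  have hadj : ∀ (a' : List (Fin 3)) (i : ℕ), IsVertex (c ++ a') → i < a'.length →
      G.Adj (f (c ++ a'.take i)) (f (c ++ a'.take (i + 1))) := by
    intro a' i ha hi
    have h1 := hpre a' (i + 1) ha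
    rw [take_succ' a' i hi, ← List.append_assoc] at h1 ⊢
    exact h.adj _ _ h1
  have hnb : ∀ (a' : List (Fin 3)), IsVertex (c ++ a') → ∀ i, i + 2 ≤ a'.length →
      f (c ++ a'.take i) ≠ f (c ++ a'.take (i + 2)) := by
    intro a' ha i hi
    have h1 := hpre a' (i + 2) ha
    rw [take_succ' a' (i + 1) (by omega), take_succ' a' i (by omega), ← List.append_assoc,
      ← List.append_assoc] at h1 ⊢
    exact h.two _ _ _ h1
  have key := vee h12 (fun j => f (c ++ a'.take j)) (fun j => f (c ++ b'.take j))
    a'.length b'.length (by simp) (by rw [← hdT]; exact hd) (fun i hi => hadj a' i ha hi)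
    (fun i hi => hadj b' i hb hi) (hnb a' ha) (hnb b' hb) (by
      intro h1 h2
      cases a' with
      | nil => simp at h1
      | cons y m =>
        cases b' with
        | nil => simp at h2
        | cons z n =>
          have h3 : y ≠ z := hhd y z m n rfl rfl
          have h4 := hpre (y :: m) 1 ha
          have h5 := hpre (z :: n) 1 hb
          exact h.ne c y z h4 h5 h3)
  obtain ⟨p, hp, hpl⟩ := key
  have e1 : (fun j => f (c ++ a'.take j)) a'.length = f (c ++ a') := by
    simp
  have e2 : (fun j => f (c ++ b'.take j)) b'.length = f (c ++ b') := by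
    simp
  refine ⟨p.copy e1 e2, (SimpleGraph.Walk.isPath_copy p e1 e2).2 hp, ?_⟩
  rw [hdT]
  exact (SimpleGraph.Walk.length_copy p e1 e2).trans hpl

/-- **The distance of the images.** -/
theorem emb_dist (h12 : ∀ (w : V) (c : G.Walk w w), c.IsCycle → 12 ≤ c.length)
    {f : List (Fin 3) → V} (h : Emb G f) (a b : List (Fin 3)) (ha : IsVertex a) (hb : IsVertex b)
    (q : G.Walk (f a) (f b)) : sf a b ≤ q.length := by
  by_cases hd : 12 ≤ treeDistance a b
  · unfold sf
    omega
  obtain ⟨p, hp, hpl⟩ := emb_path h12 h a b ha hb (by omega)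
  by_contra hcon
  push Not at hcon
  unfold sf at hcon
  have h1 := q.length_bypass_le_length
  have e := Ord.uniq h12 hp q.bypass_isPath (by omega)
  have e2 := congrArg SimpleGraph.Walk.length e
  omega

end Pool.Agent.U875.SW
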