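import Pool.Agent.U875.SW.Emb
import Pool.Agent.U875.SW.Path
import Pool.Agent.U875.SP.Main
import Pool.Agent.N410.FV.Data

/-!
# The cubic tree in a graph without nowhere-zero 5-flow, with many classes with small boundary
-/

set_option autoImplicit false
set_option linter.unusedSectionVars false

namespace Pool.Agent.U875.SW

open Finset Pool.Agent.TH676.Z Pool.Agent.Y335.FL Pool.Agent.Y358.IN Pool.Agent.R129.Ball
open Pool.Agent.U875.SP Pool.Agent.N410.FV

variable {V E : Type} [Fintype V] [DecidableEq V] [Fintype E] [DecidableEq E]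

theorem nb_le_dg (s t : E → V) (x : V) : (nb s t x).card ≤ dg s t x := by
  classical
  have hex : ∀ w ∈ nb s t x, ∃ e, w ≠ x ∧ ((s e = x ∧ t e = w) ∨ (s e = w ∧ t e = x)) := by
    intro w hw
    obtain ⟨h1, e, he⟩ := (mem_filter.1 hw).2
    exact ⟨e, h1.symm, he⟩
  rcases (nb s t x).eq_empty_or_nonempty with h0 | h0
  · rw [h0]; exact Nat.zero_le _
  haveI : Nonempty E := by
    obtain ⟨w, hw⟩ := h0
    obtain ⟨e, -⟩ := hex w hw
    exact ⟨e⟩
  choose! g hg using hex
  unfold dg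
  refine card_le_card_of_injOn g (fun w hw => ?_) ?_
  · obtain ⟨h1, h2⟩ := hg w hw
    rw [mem_coe, mem_filter]
    rcases h2 with ⟨h2, h3⟩ | ⟨h2, h3⟩
    · exact ⟨mem_univ _, by rw [h2, h3]; exact h1.symm, Or.inl h2⟩
    · exact ⟨mem_univ _, by rw [h2, h3]; exact h1, Or.inr h3⟩
  · intro w hw w' hw' hww
    obtain ⟨h1, h2⟩ := hg w hw
    obtain ⟨h1', h2'⟩ := hg w' hw'
    rw [← hww] at h2'
    rcases h2 with ⟨h2, h3⟩ | ⟨h2, h3⟩ <;> rcases h2' with ⟨h4, h5⟩ | ⟨h4, h5⟩
    · exact h3.symm.trans h5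
    · exact absurd (h4.symm.trans h2) h1'
    · exact absurd (h2.symm.trans h4) h1
    · exact h2.symm.trans h4

/-- **Most edges end in vertices of small degree.** -/
theorem weight (hc : St_contract) {s t : E → V} (hM : MinC s t) (hex : ∃ x y, Adj s t x y)
    {d : ℕ} (hd : 4 ≤ d) :
    9 * d * (∑ y, dg s t y) + 36 * d ≤
      10 * (d - 3) * (∑ y, if dg s t y < d then dg s t y else 0) + 30 * ∑ y, dg s t y := by
  classical
  have h3 := threeC hc hM
  obtain ⟨x0, y0, hxy0⟩ := hex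
  set B : Finset V := Bv s t with hB
  have hmB : ∀ v, v ∈ B ↔ ∃ y, Adj s t v y := fun v => mem_Bv
  have hB2 : 2 ≤ B.card := by
    have h5 : ({x0, y0} : Finset V) ⊆ B := by
      intro z hz
      rw [mem_insert, mem_singleton] at hz
      rcases hz with rfl | rfl
      · exact (hmB _).2 ⟨y0, hxy0⟩
      · exact (hmB _).2 ⟨x0, GiAux.adj_symm hxy0⟩
    have h6 := card_le_card h5
    rwa [card_pair hxy0.1] at h6
  have hsp := sparse hM B hB2
  have heB : ein s t B = ein s t univ := by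
    ext e
    rw [mem_ein, mem_ein]
    constructor
    · rintro ⟨_, _, h⟩; exact ⟨mem_univ _, mem_univ _, h⟩
    · rintro ⟨_, _, h⟩
      exact ⟨(hmB _).2 ⟨t e, h, e, Or.inl ⟨rfl, rfl⟩⟩,
        (hmB _).2 ⟨s e, h.symm, e, Or.inr ⟨rfl, rfl⟩⟩, h⟩
  have hz : ∀ y, y ∉ B → dg s t y = 0 := by
    intro y hy
    by_contra h0
    have h1 : 0 < (univ.filter (fun e => s e ≠ t e ∧ (s e = y ∨ t e = y))).card :=
      Nat.pos_of_ne_zero h0
    obtain ⟨e, he⟩ := card_pos.1 h1
    obtain ⟨_, h4, h5⟩ := mem_filter.1 he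
    apply hy
    rcases h5 with h5 | h5
    · exact (hmB _).2 ⟨t e, h5 ▸ h4, e, Or.inl ⟨h5, rfl⟩⟩
    · exact (hmB _).2 ⟨s e, h5 ▸ h4.symm, e, Or.inr ⟨rfl, h5⟩⟩
  have hD : ∑ y, dg s t y = 2 * (ein s t B).card := by rw [heB, ← sum_dg]
  have hDB : ∑ y ∈ B, dg s t y = ∑ y, dg s t y :=
    sum_subset (subset_univ _) fun y _ hy => hz y hy
  have hPB : ∑ y ∈ B, (if dg s t y < d then dg s t y else 0) =
      ∑ y, (if dg s t y < d then dg s t y else 0) := by
    refine sum_subset (subset_univ _) fun y _ hy => ?_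
    rw [hz y hy]
    simp
  have hdg3 : ∀ a ∈ B, 3 ≤ dg s t a := by
    intro a ha
    obtain ⟨y, hy⟩ := (hmB a).1 ha
    exact Ord.three_dg h3 hy
  have h5 : ∑ _a ∈ B, 3 * d ≤
      ∑ a ∈ B, ((d - 3) * (if dg s t a < d then dg s t a else 0) + 3 * dg s t a) := by
    refine sum_le_sum fun a ha => ?_
    have h6 := hdg3 a ha
    obtain ⟨k, rfl⟩ : ∃ k, d = k + 3 := ⟨d - 3, by omega⟩
    rw [Nat.add_sub_cancel]
    split_ifs with h7
    · nlinarith
    · nlinarith
  rw [sum_const, smul_eq_mul, sum_add_distrib, ← mul_sum, ← mul_sum, hDB, hPB] at h5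
  set P := ∑ y, (if dg s t y < d then dg s t y else 0) with hP
  set D := ∑ y, dg s t y with hDd
  have h6 : 3 * D + 12 ≤ 10 * B.card := by omega
  have h7 : 3 * d * (3 * D + 12) ≤ 3 * d * (10 * B.card) := Nat.mul_le_mul_left _ h6
  nlinarith [h5, h7]

theorem count_sum {α : Type} (p : α → Prop) [DecidablePred p] (L : List α) :
    (L.map (fun w => if p w then (1 : ℚ) else 0)).sum = ((L.filter (fun w => p w)).length : ℚ) := by
  induction L with
  | nil => simp
  | cons w L ih =>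
    rw [List.map_cons, List.sum_cons, ih]
    by_cases h : p w
    · rw [if_pos h, List.filter_cons_of_pos (by simpa using h), List.length_cons]
      push_cast
      ring
    · rw [if_neg h, List.filter_cons_of_neg (by simpa using h)]
      ring

/-- **The tree in a quotient.** -/
theorem core (hc : St_contract) (src dst : E → V) (hbr : Br src dst ∅ ∅)
    (hn : ¬ FlowOn src dst ∅ ∅) {d : ℕ} (hd : 4 ≤ d) (L : List (List (Fin 3))) (hL : L ≠ []) :
    ∃ (π : V → V) (f : List (Fin 3) → V),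
      (∀ w c, IsVertex (w ++ [c]) → Adj (π ∘ src) (π ∘ dst) (f w) (f (w ++ [c]))) ∧
      (∀ a b, IsVertex a → IsVertex b → ∀ k, Near (π ∘ src) (π ∘ dst) k (f a) (f b) →
        sf a b ≤ k) ∧
      (∀ w, IsVertex (w ++ [0]) → 3 ≤ dg (π ∘ src) (π ∘ dst) (f w)) ∧
      (9 * d - 30) * L.length <
        10 * (d - 3) * (L.filter (fun w => dg (π ∘ src) (π ∘ dst) (f w) < d)).length := by
  classical
  obtain ⟨s, t, ⟨π, rfl, rfl⟩, hM⟩ := exists_minC (ccR src dst) src dst ⟨id, rfl, rfl⟩ hbr hn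
  have h3 := threeC hc hM
  have hgi := girthC hc hM
  by_cases hl : ∀ e, (π ∘ src) e = (π ∘ dst) e
  · exact absurd (flow_of_loops hl) hM.nf
  push Not at hl
  obtain ⟨e0, he0⟩ := hl
  set s := π ∘ src with hs
  set t := π ∘ dst with ht
  let G : SimpleGraph V :=
    { Adj := Adj s t
      symm := ⟨fun a b h => GiAux.adj_symm h⟩
      loopless := ⟨fun a h => h.1 rfl⟩ }
  have hG : ∀ a b, G.Adj a b ↔ Adj s t a b := fun a b => Iff.rfl
  have h12 : ∀ (w : V) (c : G.Walk w w), c.IsCycle → 12 ≤ c.length :=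
    fun w c hc => Ord.cycle_len hgi G hG c hc
  have hx : Adj s t (s e0) (t e0) := ⟨he0, e0, Or.inl ⟨rfl, rfl⟩⟩
  have hNm : ∀ u v, u ∈ nb s t v ↔ Adj s t v u := by
    intro u v
    unfold nb
    rw [mem_filter]
    exact ⟨fun h => h.2, fun h => ⟨mem_univ _, h⟩⟩
  have hsym : ∀ u v, u ∈ nb s t v ↔ v ∈ nb s t u := by
    intro u v
    rw [hNm, hNm]
    exact ⟨fun h => GiAux.adj_symm h, fun h => GiAux.adj_symm h⟩
  have hdeg : ∀ v, (nb s t v).card = dg s t v :=
    fun v => le_antisymm (nb_le_dg s t v) (dg_le_nb hc hM v)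
  have hN3 : ∀ v, (nb s t v).Nonempty → 3 ≤ (nb s t v).card := by
    rintro v ⟨u, hu⟩
    rw [hdeg]
    exact Ord.three_dg h3 ((hNm _ _).1 hu)
  obtain ⟨f, hf, hval⟩ := tree_avg (N := nb s t) hsym hN3 ⟨s e0, t e0, (hNm _ _).2 hx⟩
    (fun v => if dg s t v < d then (1 : ℚ) else 0) L
  have hE : Emb G f := ⟨fun w c h => (hG _ _).2 ((hNm _ _).1 (hf.adj w c h)), hf.two, hf.ne⟩
  refine ⟨π, f, fun w c h => (hNm _ _).1 (hf.adj w c h), ?_, ?_, ?_⟩
  · intro a b ha hb k hk
    obtain ⟨q, hq⟩ := near_walk G hG hk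
    exact (emb_dist h12 hE a b ha hb q).trans hq
  · intro w hw
    exact Ord.three_dg h3 ((hNm _ _).1 (hf.adj w 0 hw))
  · have hw := weight hc hM ⟨_, _, hx⟩ hd
    rw [count_sum (fun w => dg s t (f w) < d) L] at hval
    have e1 : ∑ v, ((nb s t v).card : ℚ) = ((∑ v, dg s t v : ℕ) : ℚ) := by
      push_cast
      exact sum_congr rfl fun v _ => by rw [hdeg]
    have e2 : ∑ v, ((nb s t v).card : ℚ) * (if dg s t v < d then (1 : ℚ) else 0) =
        ((∑ v, (if dg s t v < d then dg s t v else 0) : ℕ) : ℚ) := by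
      push_cast
      refine sum_congr rfl fun v _ => ?_
      rw [hdeg]
      split_ifs <;> simp
    rw [e1, e2] at hval
    set D := ∑ v, dg s t v with hD
    set P := ∑ v, (if dg s t v < d then dg s t v else 0) with hP
    set m := (L.filter (fun w => dg s t (f w) < d)).length with hm
    have hval' : L.length * P ≤ D * m := by exact_mod_cast hval
    have hL0 : 0 < L.length := List.length_pos_iff.2 hL
    obtain ⟨k, rfl⟩ : ∃ k, d = k + 4 := ⟨d - 4, by omega⟩
    rw [show k + 4 - 3 = k + 1 by omega] at hw ⊢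
    rw [show 9 * (k + 4) - 30 = 9 * k + 6 by omega]
    have h7 : 10 * (k + 1) * (L.length * P) ≤ 10 * (k + 1) * (D * m) :=
      Nat.mul_le_mul_left _ hval'
    have h8 : (9 * (k + 4) * D + 36 * (k + 4)) * L.length ≤ (10 * (k + 1) * P + 30 * D) * L.length :=
      Nat.mul_le_mul_right _ hw
    have h9 : D * ((9 * k + 6) * L.length) < D * (10 * (k + 1) * m) := by
      have h10 : 0 < 36 * (k + 4) * L.length := by positivity
      nlinarith [h7, h8, h10]
    exact Nat.lt_of_mul_lt_mul_left h9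

end Pool.Agent.U875.SW
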