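import Pool.Agent.U875.SW.Defs
import Pool.Agent.U875.SW.Main

/-!
# Packings of sets with few boundary edges
-/

set_option autoImplicit false
set_option linter.unusedSectionVars false

namespace Pool.Agent.U875.SW

open Finset Pool.Agent.TH676.Z Pool.Agent.Y335.FL Pool.Agent.Y358.IN Pool.Agent.R129.Ball
open Pool.Agent.U875.SP Pool.Agent.U875.TP

variable {V E : Type} [Fintype V] [DecidableEq V] [Fintype E] [DecidableEq E]

theorem isVertex_zero {w : List (Fin 3)} (h : IsVertex w) : IsVertex (w ++ [0]) := by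
  intro c hc
  cases w with
  | nil => simp at hc
  | cons x l =>
    simp only [List.cons_append, List.tail_cons, List.mem_append, List.mem_singleton] at hc
    rcases hc with hc | hc
    · exact h c hc
    · rw [hc]; decide

theorem boundary_class (src dst : E → V) (π : V → V) (y : V) :
    (boundary src dst (univ.filter (fun v => π v = y))).card = dg (π ∘ src) (π ∘ dst) y := by
  unfold boundary dg
  congr 1
  ext e
  simp only [mem_filter, mem_univ, true_and, Function.comp_apply]
  constructor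
  · intro h
    by_cases h1 : π (src e) = y
    · exact ⟨fun h2 => h ⟨fun _ => h2 ▸ h1, fun _ => h1⟩, Or.inl h1⟩
    · by_cases h2 : π (dst e) = y
      · exact ⟨fun h3 => h1 (h3.trans h2), Or.inr h2⟩
      · exact absurd ⟨fun h3 => absurd h3 h1, fun h3 => absurd h3 h2⟩ h
  · rintro ⟨h1, h2⟩ h
    rcases h2 with h2 | h2
    · exact h1 (h2.trans (h.1 h2).symm)
    · exact h1 ((h.2 h2).trans h2.symm)

/-- **The cubic tree is spread, with many classes with few boundary edges.** -/
theorem spreadFew_of (hc : St_contract) (src dst : E → V) (hbr : Br src dst ∅ ∅)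
    (hn : ¬ FlowOn src dst ∅ ∅) {d : ℕ} (hd : 4 ≤ d) (L : List (List (Fin 3))) (hL : L ≠ [])
    (hv : ∀ w ∈ L, IsVertex w) : SpreadFew src dst d L := by
  classical
  obtain ⟨π, f, hadj, hdist, h3, hcount⟩ := core hc src dst hbr hn hd L hL
  refine ⟨fun w => univ.filter (fun v => π v = f w), ?_, ?_, ?_⟩
  · intro w c hw
    obtain ⟨-, e, he⟩ := hadj w c hw
    refine ⟨e, ?_⟩
    simp only [mem_filter, mem_univ, true_and]
    rcases he with ⟨h4, h5⟩ | ⟨h4, h5⟩
    · exact Or.inl ⟨h4, h5⟩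
    · exact Or.inr ⟨h5, h4⟩
  · intro a b ha hb u hu v hv m hw
    obtain ⟨p, hp0, hpm, hp⟩ := hw
    have h4 := near_of (π ∘ src) (π ∘ dst) (fun i => π (p i)) m (by
      intro i hi
      obtain ⟨e, he⟩ := hp i hi
      refine ⟨e, ?_⟩
      rcases he with ⟨h5, h6⟩ | ⟨h5, h6⟩
      · exact Or.inl ⟨congrArg π h5, congrArg π h6⟩
      · exact Or.inr ⟨congrArg π h5, congrArg π h6⟩)
    simp only [hp0, hpm] at h4
    rw [(mem_filter.1 hu).2, (mem_filter.1 hv).2] at h4
    exact hdist a b ha hb m h4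
  · refine lt_of_lt_of_le hcount (Nat.mul_le_mul_left _ (le_of_eq ?_))
    congr 1
    refine List.filter_congr fun w hw => ?_
    rw [boundary_class]
    simp only [decide_eq_decide]
    exact ⟨fun h => ⟨h3 w (isVertex_zero (hv w hw)), h⟩, fun h => h.2⟩

/-- the first members of a list with a symmetric relation -/
theorem of_pairwise {α : Type} {R : α → α → Prop} {L : List α}
    (h : L.Pairwise (fun a b => R a b ∧ R b a)) {k : ℕ} (hk : k ≤ L.length) :
    ∃ x : Fin k → α, (∀ i, x i ∈ L) ∧ ∀ i j, i ≠ j → R (x i) (x j) := by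
  refine ⟨fun i => L.get ⟨i, lt_of_lt_of_le i.2 hk⟩, fun i => List.get_mem _ _, fun i j hij => ?_⟩
  rw [List.pairwise_iff_get] at h
  rcases lt_or_gt_of_ne hij with h1 | h1
  · exact (h ⟨i, lt_of_lt_of_le i.2 hk⟩ ⟨j, lt_of_lt_of_le j.2 hk⟩ h1).1
  · exact (h ⟨j, lt_of_lt_of_le j.2 hk⟩ ⟨i, lt_of_lt_of_le i.2 hk⟩ h1).2

theorem many_le {d k m : ℕ} (hd : 4 ≤ d) (h : (9 * d - 30) * k < 10 * (d - 3) * m) :
    many d k ≤ m := by
  unfold many
  rw [mul_comm] at h
  have h1 : 0 < 10 * (d - 3) := by omega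
  exact (Nat.div_lt_iff_lt_mul h1).2 (by rw [mul_comm m]; exact h)

/-- the words are pairwise far -/
abbrev farL (D : ℕ) (L : List (List (Fin 3))) : Prop :=
  L.Pairwise (fun a b => D ≤ sf a b ∧ D ≤ sf b a)

theorem farSets_of {src dst : E → V} {d D : ℕ} (hd : 4 ≤ d) {L : List (List (Fin 3))}
    (hv : ∀ w ∈ L, IsVertex w) (hp : farL D L) (hS : SpreadFew src dst d L) :
    FarSets src dst d (many d L.length) D := by
  obtain ⟨X, -, hX, hc⟩ := hS
  obtain ⟨x, hx, hx2⟩ := of_pairwise (R := fun a b => D ≤ sf a b) (hp.filter _) (many_le hd hc)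
  refine ⟨fun i => X (x i), fun i => ?_, fun i j hij u hu v hv' m hm => ?_⟩
  · have h1 := (List.mem_filter.1 (hx i)).2
    simpa using h1
  · have h1 := hv _ (List.mem_filter.1 (hx i)).1
    have h2 := hv _ (List.mem_filter.1 (hx j)).1
    exact (hx2 i j hij).trans (hX _ _ h1 h2 u hu v hv' m hm)

instance decFar (D : ℕ) (L : List (List (Fin 3))) : Decidable (farL D L) := by
  unfold farL; infer_instance

theorem v18_ok : (∀ w ∈ v18, IsVertex w) ∧ farL 3 v18 := by decide +kernel

theorem v13_ok : (∀ w ∈ v13, IsVertex w) ∧ farL 4 v13 := by decide +kernel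

theorem v4_ok : (∀ w ∈ v4, IsVertex w) ∧ farL 5 v4 := by decide +kernel

theorem v3_ok : (∀ w ∈ v3, IsVertex w) ∧ farL 6 v3 := by decide +kernel

end Pool.Agent.U875.SW
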