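import Pool.Agent.U605.DD.Lift
import Pool.Agent.U875.SW.Pack

/-!
# Packings of balls
-/

set_option autoImplicit false
set_option linter.unusedSectionVars false

namespace Pool.Agent.U875.SW

open Finset Pool.Agent.TH676.Z Pool.Agent.Y335.FL Pool.Agent.Y358.IN Pool.Agent.R129.Ball
open Pool.Agent.U875.SP Pool.Agent.U605.DD Pool.Agent.N410.DC

variable {V E : Type} [Fintype V] [DecidableEq V] [Fintype E] [DecidableEq E]

theorem ct_card (s t : E → V) (y : V) : (ct s t y).card = dg s t y := by
  unfold dg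
  congr 1
  ext e
  rw [mem_ct, mem_filter]
  constructor
  · intro h
    by_cases h1 : s e = y
    · exact ⟨mem_univ _, fun h2 => h ⟨fun _ => h2 ▸ h1, fun _ => h1⟩, Or.inl h1⟩
    · by_cases h2 : t e = y
      · exact ⟨mem_univ _, fun h3 => h1 (h3.trans h2), Or.inr h2⟩
      · exact absurd ⟨fun h3 => absurd h3 h1, fun h3 => absurd h3 h2⟩ h
  · rintro ⟨-, h1, h2⟩ h
    rcases h2 with h2 | h2
    · exact h1 (h2.trans (h.1 h2).symm)
    · exact h1 ((h.2 h2).trans h2.symm)

theorem near_of_within {s t : E → V} {k : ℕ} {x y : V} (h : Within s t k x y) :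
    Near s t k x y := by
  induction k generalizing y with
  | zero =>
    have h0 : x = y := h
    rw [h0]
    exact Near.refl _ _
  | succ k ih =>
    rcases h with h | ⟨z, e, h, he⟩
    · exact (ih h).succ
    · by_cases hzy : z = y
      · rw [← hzy]
        exact (ih h).succ
      · exact Near.step (ih h) ⟨hzy, e, he⟩

/-- There are `k` vertices such that the distance of any two is at least `D` plus their radii. -/
def FarBalls (s t : E → V) (d r k D : ℕ) : Prop :=
  ∃ x : Fin k → V, ∀ i j, i ≠ j → Pool.Agent.U605.DD.Apart s t d r (D - 1) (x i) (x j)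

theorem farBalls_of (hc : St_contract) (src dst : E → V) (hbr : Br src dst ∅ ∅)
    (hn : ¬ FlowOn src dst ∅ ∅) {d r D : ℕ} (hd : 4 ≤ d) (hD : 1 ≤ D)
    (hcyc : ∀ (v : V) (c : (under src dst).Walk v v), c.IsCycle → c.length ≤ 2 * r →
      ∃ w ∈ c.support, (nbrs src dst w).card < d)
    {L : List (List (Fin 3))} (hL : L ≠ []) (hv : ∀ w ∈ L, IsVertex w) (hp : farL D L) :
    FarBalls src dst d r (many d L.length) D := by
  classical
  obtain ⟨π, f, -, hdist, h3, hcount⟩ := core hc src dst hbr hn hd L hL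
  obtain ⟨x, hx, hx2⟩ := of_pairwise (R := fun a b => D ≤ sf a b) (hp.filter _)
    (many_le hd hcount)
  have hdeep : ∀ i, ∃ v, π v = f (x i) ∧
      ∀ w, Within src dst (radius src dst d r v) v w → π w = f (x i) := by
    intro i
    obtain ⟨h1, h2⟩ := List.mem_filter.1 (hx i)
    have h4 := h3 (x i) (isVertex_zero (hv _ h1))
    have h5 : dg (π ∘ src) (π ∘ dst) (f (x i)) < d := by simpa using h2
    obtain ⟨v, h6, -, h7⟩ := deep_ball (s := src) (t := dst) π (d := d) (r := r) (y := f (x i))
      hcyc (by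
        have h8 := ct_card (π ∘ src) (π ∘ dst) (f (x i))
        have h9 : (ct (fun e => π (src e)) (fun e => π (dst e)) (f (x i))).card =
          dg (π ∘ src) (π ∘ dst) (f (x i)) := h8
        omega) (by
        have h8 := ct_card (π ∘ src) (π ∘ dst) (f (x i))
        have h9 : (ct (fun e => π (src e)) (fun e => π (dst e)) (f (x i))).card =
          dg (π ∘ src) (π ∘ dst) (f (x i)) := h8
        omega)
    exact ⟨v, h6, h7⟩
  choose v hv1 hv2 using hdeep
  refine ⟨v, fun i j hij hw => ?_⟩
  have h1 := within_deep π d r (fun w hw => (hv2 i w hw).trans (hv1 i).symm)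
    (fun w hw => (hv2 j w hw).trans (hv1 j).symm) hw
  rw [hv1 i, hv1 j] at h1
  have h2 : Near (π ∘ src) (π ∘ dst) (D - 1) (f (x i)) (f (x j)) := near_of_within h1
  have h4 := hdist _ _ (hv _ (List.mem_filter.1 (hx i)).1) (hv _ (List.mem_filter.1 (hx j)).1) _ h2
  have h5 := hx2 i j hij
  omega

end Pool.Agent.U875.SW
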