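import Mathlib

/-!
# Averages over walks without backtracking

`N v` is the set of the neighbours of `v`.
-/

set_option autoImplicit false
set_option linter.unusedSectionVars false

namespace Pool.Agent.U875.SW

open Finset

variable {V : Type} [DecidableEq V]

/-- two different elements -/
theorem pick2 {S : Finset V} (hS : 2 ≤ S.card) (a b : V → ℚ) :
    ∃ x ∈ S, ∃ y ∈ S, x ≠ y ∧
      ∑ z ∈ S, a z + ∑ z ∈ S, b z ≤ (S.card : ℚ) * (a x + b y) := by
  by_contra hcon
  push Not at hcon
  have hne : S.Nonempty := card_pos.1 (by omega)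
  have h1 : ∀ x ∈ S, ∑ y ∈ S.erase x, (S.card : ℚ) * (a x + b y) <
      ∑ _y ∈ S.erase x, (∑ z ∈ S, a z + ∑ z ∈ S, b z) := by
    intro x hx
    apply sum_lt_sum_of_nonempty
    · rw [← card_pos, card_erase_of_mem hx]
      omega
    · intro y hy
      exact hcon x hx y (mem_of_mem_erase hy) (ne_of_mem_erase hy).symm
  have h2 := sum_lt_sum_of_nonempty hne h1
  have h3 : ∀ x ∈ S, ∑ y ∈ S.erase x, (S.card : ℚ) * (a x + b y) =
      (S.card : ℚ) * (((S.card : ℚ) - 1) * a x + (∑ z ∈ S, b z - b x)) := by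
    intro x hx
    rw [← mul_sum, sum_add_distrib, sum_const, card_erase_of_mem hx, nsmul_eq_mul,
      Nat.cast_sub (by omega), Nat.cast_one, sum_erase_eq_sub hx]
  have h4 : ∀ x ∈ S, ∑ _y ∈ S.erase x, (∑ z ∈ S, a z + ∑ z ∈ S, b z) =
      ((S.card : ℚ) - 1) * (∑ z ∈ S, a z + ∑ z ∈ S, b z) := by
    intro x hx
    rw [sum_const, card_erase_of_mem hx, nsmul_eq_mul, Nat.cast_sub (by omega), Nat.cast_one]
  rw [sum_congr rfl h3, sum_congr rfl h4, ← mul_sum, sum_add_distrib, ← mul_sum, sum_sub_distrib,
    sum_const, sum_const, nsmul_eq_mul, nsmul_eq_mul] at h2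
  nlinarith [h2]

/-- three different elements -/
theorem pick3 {S : Finset V} (hS : 3 ≤ S.card) (a b c : V → ℚ) :
    ∃ x ∈ S, ∃ y ∈ S, ∃ z ∈ S, x ≠ y ∧ x ≠ z ∧ y ≠ z ∧
      ∑ t ∈ S, a t + ∑ t ∈ S, b t + ∑ t ∈ S, c t ≤ (S.card : ℚ) * (a x + b y + c z) := by
  by_contra hcon
  push Not at hcon
  have hne : S.Nonempty := card_pos.1 (by omega)
  set n : ℚ := (S.card : ℚ) with hn
  have hn3 : (3 : ℚ) ≤ n := by rw [hn]; exact_mod_cast hS
  set T : ℚ := ∑ t ∈ S, a t + ∑ t ∈ S, b t + ∑ t ∈ S, c t with hT
  have h1 : ∀ x ∈ S, n * (n - 1) * a x + n * ((∑ t ∈ S, b t - b x) + (∑ t ∈ S, c t - c x)) <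
      (n - 1) * T := by
    intro x hx
    have hc : (S.erase x).card = S.card - 1 := card_erase_of_mem hx
    obtain ⟨y, hy, z, hz, hyz, h2⟩ := pick2 (S := S.erase x) (by omega) b c
    have h3 := hcon x hx y (mem_of_mem_erase hy) z (mem_of_mem_erase hz)
      (ne_of_mem_erase hy).symm (ne_of_mem_erase hz).symm hyz
    rw [hc, Nat.cast_sub (by omega), Nat.cast_one, sum_erase_eq_sub hx, sum_erase_eq_sub hx,
      ← hn] at h2
    have h4 : 0 < n - 1 := by linarith
    have h5 := mul_le_mul_of_nonneg_left h2 (show (0 : ℚ) ≤ n by linarith)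
    have h6 := mul_lt_mul_of_pos_left h3 h4
    nlinarith
  have h2 := sum_lt_sum_of_nonempty hne h1
  rw [sum_add_distrib, ← mul_sum, ← mul_sum, sum_add_distrib, sum_sub_distrib, sum_sub_distrib,
    sum_const, sum_const, sum_const, nsmul_eq_mul, nsmul_eq_mul, nsmul_eq_mul, ← hn] at h2
  rw [hT] at h2
  nlinarith [h2]

section avg

variable [Fintype V] (N : V → Finset V)

/-- the average over the next step -/
def A (g : V → V → ℚ) (p v : V) : ℚ := (∑ u ∈ (N v).erase p, g v u) / (((N v).card : ℚ) - 1)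

theorem A_sum (h3 : ∀ v, (N v).Nonempty → 3 ≤ (N v).card) (g : V → V → ℚ) :
    ∑ v, ∑ p ∈ N v, A N g p v = ∑ v, ∑ u ∈ N v, g v u := by
  refine sum_congr rfl fun v _ => ?_
  rcases (N v).eq_empty_or_nonempty with h | h
  · rw [h, sum_empty, sum_empty]
  have h4 := h3 v h
  have h5 : ((N v).card : ℚ) - 1 ≠ 0 := by
    have : (3 : ℚ) ≤ ((N v).card : ℚ) := by exact_mod_cast h4
    intro h6
    linarith
  have h6 : ∀ p ∈ N v, A N g p v = (∑ u ∈ N v, g v u - g v p) / (((N v).card : ℚ) - 1) := by
    intro p hp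
    unfold A
    rw [sum_erase_eq_sub hp]
  rw [sum_congr rfl h6, ← sum_div, sum_sub_distrib, sum_const, nsmul_eq_mul,
    div_eq_iff h5]
  ring

theorem swap (hs : ∀ u v, u ∈ N v ↔ v ∈ N u) (g : V → V → ℚ) :
    ∑ v, ∑ u ∈ N v, g v u = ∑ v, ∑ u ∈ N v, g u v := by
  rw [sum_comm' (s := univ) (t := N) (t' := univ) (s' := N)]
  intro x y
  constructor
  · rintro ⟨_, h⟩; exact ⟨(hs x y).2 h |> fun h => h, mem_univ _⟩
  · rintro ⟨h, _⟩; exact ⟨mem_univ _, (hs x y).1 h⟩

/-- the words after the letter `b` -/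
def sub (b : Bool) : List (List Bool) → List (List Bool)
  | [] => []
  | [] :: L => sub b L
  | (c :: u) :: L => if c = b then u :: sub b L else sub b L

/-- the number of the empty words -/
def emp {α : Type} : List (List α) → ℕ
  | [] => 0
  | [] :: L => emp L + 1
  | (_ :: _) :: L => emp L

theorem len_sub (L : List (List Bool)) :
    L.length = emp L + (sub false L).length + (sub true L).length := by
  induction L with
  | nil => rfl
  | cons w L ih =>
    cases w with
    | nil => simp only [sub, emp, List.length_cons]; omega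
    | cons c u => cases c <;> simp [sub, emp, List.length_cons] <;> omega

theorem score_sub (χ : List Bool → ℚ) (L : List (List Bool)) :
    (L.map χ).sum = emp L * χ [] + ((sub false L).map (fun u => χ (false :: u))).sum +
      ((sub true L).map (fun u => χ (true :: u))).sum := by
  induction L with
  | nil => simp [sub, emp]
  | cons w L ih =>
    cases w with
    | nil => simp only [sub, emp, List.map_cons, List.sum_cons, ih]; push_cast; ring
    | cons c u =>
      cases c
      · simp only [sub, emp, List.map_cons, List.sum_cons, ih, if_true]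
        simp
        ring
      · simp only [sub, emp, List.map_cons, List.sum_cons, ih, if_true]
        simp
        ring

theorem sub_len {n : ℕ} {b : Bool} {L : List (List Bool)} (h : ∀ w ∈ L, w.length ≤ n + 1) :
    ∀ w ∈ sub b L, w.length ≤ n := by
  induction L with
  | nil => simp [sub]
  | cons w L ih =>
    have ih' := ih (fun w hw => h w (List.mem_cons_of_mem _ hw))
    cases w with
    | nil => exact ih'
    | cons c u =>
      simp only [sub]
      split_ifs with h1
      · intro w hw
        rcases List.mem_cons.1 hw with rfl | hw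
        · have := h (c :: w) List.mem_cons_self
          simpa using this
        · exact ih' w hw
      · exact ih'

/-- the expected value -/
def F (χ : V → ℚ) : ℕ → List (List Bool) → V → V → ℚ
  | 0, L, _, v => L.length * χ v
  | n + 1, L, p, v => emp L * χ v + A N (F χ n (sub false L)) p v + A N (F χ n (sub true L)) p v

theorem F_sum (hs : ∀ u v, u ∈ N v ↔ v ∈ N u) (h3 : ∀ v, (N v).Nonempty → 3 ≤ (N v).card)
    (χ : V → ℚ) (n : ℕ) : ∀ L : List (List Bool),
    ∑ v, ∑ p ∈ N v, F N χ n L p v = L.length * ∑ v, ((N v).card : ℚ) * χ v := by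
  have hc : ∀ c : ℚ, ∑ v, ∑ _p ∈ N v, c * χ v = c * ∑ v, ((N v).card : ℚ) * χ v := by
    intro c
    rw [mul_sum]
    refine sum_congr rfl fun v _ => ?_
    rw [sum_const, nsmul_eq_mul]
    ring
  induction n with
  | zero => intro L; exact hc _
  | succ n ih =>
    intro L
    have h1 : ∀ L', ∑ v, ∑ p ∈ N v, A N (F N χ n L') p v =
        L'.length * ∑ v, ((N v).card : ℚ) * χ v := by
      intro L'
      rw [A_sum N h3, swap N hs]
      exact ih L'
    simp only [F, sum_add_distrib]
    rw [hc, h1, h1]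
    have h2 := len_sub L
    have h4 : (L.length : ℚ) = emp L + (sub false L).length + (sub true L).length := by
      exact_mod_cast h2
    rw [h4]
    ring

end avg

end Pool.Agent.U875.SW
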