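import Pool.Agent.U875.SP.Defs
import Pool.Agent.U875.TP.Defs

/-!
# The cubic tree spread over a graph, with many classes with few boundary edges

A finite multigraph has the vertex set `V` and the edge set `E`; the ends of the edge `e` are `src e`
and `dst e`.
-/

set_option autoImplicit false

namespace Pool.Agent.U875.SW

open Pool.Agent.U875.SP Pool.Agent.U875.TP

variable {V E : Type} [Fintype V] [DecidableEq V] [Fintype E] [DecidableEq E]

/-- The cubic tree is spread over the graph, its vertices `w` have classes `X w` of vertices of the
graph: classes of adjacent vertices of the tree are joined by an edge of the graph, and the vertices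
in `X a` have distance at least `min t (12 - t)` from the vertices in `X b`, where `t` is the distance
of `a` and `b` in the tree; and more than the part `(9 d - 30) / (10 (d - 3))` of the classes of the
members of the list `L` of vertices of the tree have at least three and fewer than `d` boundary
edges. -/
def SpreadFew (src dst : E → V) (d : ℕ) (L : List (List (Fin 3))) : Prop :=
  ∃ X : List (Fin 3) → Finset V,
    (∀ w c, IsVertex (w ++ [c]) → ∃ e, (src e ∈ X w ∧ dst e ∈ X (w ++ [c])) ∨
      (dst e ∈ X w ∧ src e ∈ X (w ++ [c]))) ∧
    (∀ a b, IsVertex a → IsVertex b → ∀ u ∈ X a, ∀ v ∈ X b,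
      Apart src dst (min (treeDistance a b) (12 - treeDistance a b)) u v) ∧
    (9 * d - 30) * L.length < 10 * (d - 3) * (L.filter (fun w =>
      3 ≤ (boundary src dst (X w)).card ∧ (boundary src dst (X w)).card < d)).length

/-- There are `k` sets of vertices with at least three and fewer than `d` boundary edges such that the
vertices of different sets have distance at least `D`. -/
def FarSets (src dst : E → V) (d k D : ℕ) : Prop :=
  ∃ X : Fin k → Finset V,
    (∀ i, 3 ≤ (boundary src dst (X i)).card ∧ (boundary src dst (X i)).card < d) ∧
      ∀ i j, i ≠ j → ∀ u ∈ X i, ∀ v ∈ X j, Apart src dst D u v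

/-- The least integer which is greater than `k (9 d - 30) / (10 (d - 3))`. -/
def many (d k : ℕ) : ℕ := k * (9 * d - 30) / (10 * (d - 3)) + 1

end Pool.Agent.U875.SW
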