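import Pool.Agent.U875.SW.Avg
import Pool.Agent.U875.SP.Defs

/-!
# Embeddings of the cubic tree with many vertices of large value
-/

set_option autoImplicit false
set_option linter.unusedSectionVars false

namespace Pool.Agent.U875.SW

open Finset Pool.Agent.U875.SP

variable {V : Type} [DecidableEq V] [Fintype V] {N : V → Finset V}

/-- the binary tree is mapped without backtracking, starting with the step from `p` to `v` -/
structure Sub (N : V → Finset V) (p v : V) (f : List Bool → V) : Prop where
  root : f [] = v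
  adj : ∀ u b, f (u ++ [b]) ∈ N (f u)
  first : ∀ b, f [b] ≠ p
  two : ∀ u b b', f u ≠ f (u ++ [b] ++ [b'])
  ne : ∀ u, f (u ++ [false]) ≠ f (u ++ [true])

/-- two branches are joined -/
def join (v : V) (f0 f1 : List Bool → V) : List Bool → V
  | [] => v
  | false :: u => f0 u
  | true :: u => f1 u

theorem join_sub {p v u0 u1 : V} {f0 f1 : List Bool → V} (h0 : Sub N v u0 f0) (h1 : Sub N v u1 f1)
    (hu0 : u0 ∈ N v) (hu1 : u1 ∈ N v) (hp0 : u0 ≠ p) (hp1 : u1 ≠ p) (hne : u0 ≠ u1) :
    Sub N p v (join v f0 f1) := by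
  refine ⟨rfl, ?_, ?_, ?_, ?_⟩
  · intro u b
    cases u with
    | nil =>
      cases b
      · show f0 [] ∈ N v
        rw [h0.root]; exact hu0
      · show f1 [] ∈ N v
        rw [h1.root]; exact hu1
    | cons c u =>
      cases c
      · exact h0.adj u b
      · exact h1.adj u b
  · intro b
    cases b
    · show f0 [] ≠ p
      rw [h0.root]; exact hp0
    · show f1 [] ≠ p
      rw [h1.root]; exact hp1
  · intro u b b'
    cases u with
    | nil =>
      cases b
      · exact (h0.first b').symm
      · exact (h1.first b').symm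
    | cons c u =>
      cases c
      · exact h0.two u b b'
      · exact h1.two u b b'
  · intro u
    cases u with
    | nil =>
      show f0 [] ≠ f1 []
      rw [h0.root, h1.root]; exact hne
    | cons c u =>
      cases c
      · exact h0.ne u
      · exact h1.ne u

/-- every step can be continued to an infinite tree -/
theorem base (hs : ∀ u v, u ∈ N v ↔ v ∈ N u) (h3 : ∀ v, (N v).Nonempty → 3 ≤ (N v).card)
    (p v : V) (hp : p ∈ N v) : ∃ f, Sub N p v f := by
  classical
  have hex : ∀ q : V × V, ∃ g : Bool → V, q.1 ∈ N q.2 →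
      (∀ b, g b ∈ N q.2 ∧ g b ≠ q.1) ∧ g false ≠ g true := by
    intro q
    by_cases hq : q.1 ∈ N q.2
    · have h4 := h3 q.2 ⟨_, hq⟩
      have h5 : 1 < ((N q.2).erase q.1).card := by
        rw [card_erase_of_mem hq]; omega
      obtain ⟨a, ha, b, hb, hab⟩ := one_lt_card.1 h5
      refine ⟨fun c => if c then b else a, fun _ => ⟨?_, ?_⟩⟩
      · intro c
        cases c
        · exact ⟨mem_of_mem_erase ha, ne_of_mem_erase ha⟩
        · exact ⟨mem_of_mem_erase hb, ne_of_mem_erase hb⟩
      · simpa using hab
    · exact ⟨fun _ => v, fun h => absurd h hq⟩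
  choose g hg using hex
  let st : List Bool → V × V := fun u => u.foldl (fun q b => (q.2, g q b)) (p, v)
  have hst : ∀ u b, st (u ++ [b]) = ((st u).2, g (st u) b) := by
    intro u b
    show (u ++ [b]).foldl _ _ = _
    rw [List.foldl_append]
    rfl
  have hinv : ∀ u, (st u).1 ∈ N (st u).2 := by
    intro u
    induction u using List.reverseRecOn with
    | nil => exact hp
    | append_singleton u b ih =>
      rw [hst]
      exact (hs _ _).1 ((hg _ ih).1 b).1
  refine ⟨fun u => (st u).2, rfl, ?_, ?_, ?_, ?_⟩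
  · intro u b
    show (st (u ++ [b])).2 ∈ N (st u).2
    rw [hst]
    exact ((hg _ (hinv u)).1 b).1
  · intro b
    exact ((hg (p, v) hp).1 b).2
  · intro u b b'
    show (st u).2 ≠ (st (u ++ [b] ++ [b'])).2
    rw [hst (u ++ [b]) b']
    have h4 := ((hg _ (hinv (u ++ [b]))).1 b').2
    have h5 : (st (u ++ [b])).1 = (st u).2 := by rw [hst]
    rw [h5] at h4
    exact h4.symm
  · intro u
    show (st (u ++ [false])).2 ≠ (st (u ++ [true])).2
    rw [hst, hst]
    exact (hg _ (hinv u)).2

/-- **A branch with at least the expected value.** -/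
theorem pick (hs : ∀ u v, u ∈ N v ↔ v ∈ N u) (h3 : ∀ v, (N v).Nonempty → 3 ≤ (N v).card)
    (χ : V → ℚ) (n : ℕ) : ∀ (L : List (List Bool)) (p v : V), (∀ w ∈ L, w.length ≤ n) → p ∈ N v →
    ∃ f, Sub N p v f ∧ F N χ n L p v ≤ (L.map (fun w => χ (f w))).sum := by
  induction n with
  | zero =>
    intro L p v hL hp
    obtain ⟨f, hf⟩ := base hs h3 p v hp
    refine ⟨f, hf, le_of_eq ?_⟩
    have h1 : L.map (fun w => χ (f w)) = L.map (fun _ => χ v) := by
      refine List.map_congr_left fun w hw => ?_
      have h2 : w = [] := List.length_eq_zero_iff.1 (Nat.le_zero.1 (hL w hw))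
      rw [h2, hf.root]
    rw [h1, List.map_const', List.sum_replicate, nsmul_eq_mul]
    rfl
  | succ n ih =>
    intro L p v hL hp
    have h4 := h3 v ⟨_, hp⟩
    have hc : ((N v).erase p).card = (N v).card - 1 := card_erase_of_mem hp
    obtain ⟨x, hx, y, hy, hxy, h5⟩ := pick2 (S := (N v).erase p) (by omega)
      (F N χ n (sub false L) v) (F N χ n (sub true L) v)
    obtain ⟨f0, hf0, h6⟩ := ih (sub false L) v x (sub_len hL)
      ((hs _ _).1 (mem_of_mem_erase hx))
    obtain ⟨f1, hf1, h7⟩ := ih (sub true L) v y (sub_len hL)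
      ((hs _ _).1 (mem_of_mem_erase hy))
    refine ⟨join v f0 f1, join_sub hf0 hf1 (mem_of_mem_erase hx) (mem_of_mem_erase hy)
      (ne_of_mem_erase hx) (ne_of_mem_erase hy) hxy, ?_⟩
    have h8 := score_sub (fun w => χ (join v f0 f1 w)) L
    have h9 : A N (F N χ n (sub false L)) p v + A N (F N χ n (sub true L)) p v ≤
        F N χ n (sub false L) v x + F N χ n (sub true L) v y := by
      unfold A
      rw [← add_div, div_le_iff₀ (by
        have : (3 : ℚ) ≤ ((N v).card : ℚ) := by exact_mod_cast h4
        linarith)]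
      rw [hc, Nat.cast_sub (by omega), Nat.cast_one] at h5
      linarith
    show emp L * χ v + A N (F N χ n (sub false L)) p v + A N (F N χ n (sub true L)) p v ≤ _
    rw [h8]
    have h10 : (fun w => χ (join v f0 f1 w)) [] = χ v := rfl
    have h11 : ((sub false L).map (fun u => χ (join v f0 f1 (false :: u)))).sum =
      ((sub false L).map (fun w => χ (f0 w))).sum := rfl
    have h12 : ((sub true L).map (fun u => χ (join v f0 f1 (true :: u)))).sum =
      ((sub true L).map (fun w => χ (f1 w))).sum := rfl
    rw [h11, h12]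
    have h13 : χ (join v f0 f1 []) = χ v := rfl
    rw [h13]
    linarith

/-! ### The cubic tree -/

/-- the letter of the binary tree -/
def bit (c : Fin 3) : Bool := decide (c = 1)

/-- the words after the letter `c` -/
def sub3 (c : Fin 3) : List (List (Fin 3)) → List (List Bool)
  | [] => []
  | [] :: L => sub3 c L
  | (d :: u) :: L => if d = c then u.map bit :: sub3 c L else sub3 c L

theorem len_sub3 (L : List (List (Fin 3))) :
    L.length = emp L + (sub3 0 L).length + (sub3 1 L).length + (sub3 2 L).length := by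
  induction L with
  | nil => rfl
  | cons w L ih =>
    cases w with
    | nil => simp only [sub3, emp, List.length_cons]; omega
    | cons c u => fin_cases c <;> simp [sub3, emp, List.length_cons] <;> omega

theorem sub3_len {n : ℕ} {c : Fin 3} {L : List (List (Fin 3))} (h : ∀ w ∈ L, w.length ≤ n) :
    ∀ w ∈ sub3 c L, w.length ≤ n := by
  induction L with
  | nil => simp [sub3]
  | cons w L ih =>
    have ih' := ih (fun w hw => h w (List.mem_cons_of_mem _ hw))
    cases w with
    | nil => exact ih'
    | cons d u =>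
      simp only [sub3]
      split_ifs with h1
      · intro w hw
        rcases List.mem_cons.1 hw with rfl | hw
        · have := h (d :: u) List.mem_cons_self
          rw [List.length_map]
          simp only [List.length_cons] at this
          omega
        · exact ih' w hw
      · exact ih'

/-- the whole tree -/
def whole (x : V) (f : Fin 3 → List Bool → V) : List (Fin 3) → V
  | [] => x
  | c :: u => f c (u.map bit)

theorem score_sub3 (χ : V → ℚ) (x : V) (f : Fin 3 → List Bool → V) (L : List (List (Fin 3))) :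
    (L.map (fun w => χ (whole x f w))).sum = emp L * χ x +
      ((sub3 0 L).map (fun u => χ (f 0 u))).sum + ((sub3 1 L).map (fun u => χ (f 1 u))).sum +
      ((sub3 2 L).map (fun u => χ (f 2 u))).sum := by
  induction L with
  | nil => simp [sub3, emp]
  | cons w L ih =>
    cases w with
    | nil =>
      rw [List.map_cons, List.sum_cons, ih]
      simp only [sub3, emp]
      show χ x + _ = _
      push_cast
      ring
    | cons c u =>
      rw [List.map_cons, List.sum_cons, ih]
      show χ (f c (u.map bit)) + _ = _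
      fin_cases c <;> simp [sub3, emp] <;> ring

/-- the cubic tree is mapped without backtracking -/
structure IsT (N : V → Finset V) (f : List (Fin 3) → V) : Prop where
  adj : ∀ w c, IsVertex (w ++ [c]) → f (w ++ [c]) ∈ N (f w)
  two : ∀ w c c', IsVertex (w ++ [c] ++ [c']) → f w ≠ f (w ++ [c] ++ [c'])
  ne : ∀ w c c', IsVertex (w ++ [c]) → IsVertex (w ++ [c']) → c ≠ c' →
    f (w ++ [c]) ≠ f (w ++ [c'])

theorem bit_ne {c c' : Fin 3} (h : c ≠ 2) (h' : c' ≠ 2) (hne : c ≠ c') :
    (bit c = false ∧ bit c' = true) ∨ (bit c = true ∧ bit c' = false) := by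
  revert c c'
  decide

theorem whole_isT {x : V} {u : Fin 3 → V} {f : Fin 3 → List Bool → V}
    (hf : ∀ c, Sub N x (u c) (f c)) (hu : ∀ c, u c ∈ N x) (hinj : Function.Injective u) :
    IsT N (whole x f) := by
  refine ⟨?_, ?_, ?_⟩
  · intro w c _
    cases w with
    | nil =>
      show f c [] ∈ N x
      rw [(hf c).root]
      exact hu c
    | cons d w =>
      show f d ((w ++ [c]).map bit) ∈ N (f d (w.map bit))
      rw [List.map_append]
      exact (hf d).adj _ _
  · intro w c c' _
    cases w with
    | nil => exact ((hf c).first (bit c')).symm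
    | cons d w =>
      show f d (w.map bit) ≠ f d ((w ++ [c] ++ [c']).map bit)
      rw [List.map_append, List.map_append]
      exact (hf d).two _ _ _
  · intro w c c' h h' hne
    cases w with
    | nil =>
      show f c [] ≠ f c' []
      rw [(hf c).root, (hf c').root]
      exact fun h2 => hne (hinj h2)
    | cons d w =>
      show f d ((w ++ [c]).map bit) ≠ f d ((w ++ [c']).map bit)
      rw [List.map_append, List.map_append]
      have h2 : c ≠ 2 := h c (by simp)
      have h3 : c' ≠ 2 := h' c' (by simp)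
      rcases bit_ne h2 h3 hne with ⟨h4, h5⟩ | ⟨h4, h5⟩
      · simp only [List.map_cons, List.map_nil, h4, h5]
        exact (hf d).ne _
      · simp only [List.map_cons, List.map_nil, h4, h5]
        exact ((hf d).ne _).symm

/-- **The tree has an embedding with at least the average value.** -/
theorem tree_avg (hs : ∀ u v, u ∈ N v ↔ v ∈ N u) (h3 : ∀ v, (N v).Nonempty → 3 ≤ (N v).card)
    (hne : ∃ v, (N v).Nonempty) (χ : V → ℚ) (L : List (List (Fin 3))) :
    ∃ f, IsT N f ∧ (L.length : ℚ) * ∑ v, ((N v).card : ℚ) * χ v ≤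
      (∑ v, ((N v).card : ℚ)) * (L.map (fun w => χ (f w))).sum := by
  obtain ⟨n, hn⟩ : ∃ n, ∀ w ∈ L, w.length ≤ n := by
    refine ⟨(L.map List.length).sum, fun w hw => ?_⟩
    exact List.single_le_sum (by simp) _ (List.mem_map_of_mem hw)
  by_contra hcon
  push Not at hcon
  set D : ℚ := ∑ v, ((N v).card : ℚ) with hD
  set P : ℚ := ∑ v, ((N v).card : ℚ) * χ v with hP
  have key : ∀ x, (N x).Nonempty →
      D * (((N x).card : ℚ) * (emp L * χ x) + (∑ p ∈ N x, F N χ n (sub3 0 L) x p +
        ∑ p ∈ N x, F N χ n (sub3 1 L) x p + ∑ p ∈ N x, F N χ n (sub3 2 L) x p)) <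
      ((N x).card : ℚ) * ((L.length : ℚ) * P) := by
    intro x hx
    have h4 := h3 x hx
    obtain ⟨a, ha, b, hb, c, hc, hab, hac, hbc, h5⟩ := pick3 h4 (F N χ n (sub3 0 L) x)
      (F N χ n (sub3 1 L) x) (F N χ n (sub3 2 L) x)
    obtain ⟨f0, hf0, h6⟩ := pick hs h3 χ n (sub3 0 L) x a (sub3_len hn) ((hs _ _).1 ha)
    obtain ⟨f1, hf1, h7⟩ := pick hs h3 χ n (sub3 1 L) x b (sub3_len hn) ((hs _ _).1 hb)
    obtain ⟨f2, hf2, h8⟩ := pick hs h3 χ n (sub3 2 L) x c (sub3_len hn) ((hs _ _).1 hc)
    have h9 := hcon (whole x ![f0, f1, f2]) (whole_isT (u := ![a, b, c]) (by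
        intro i
        fin_cases i
        · exact hf0
        · exact hf1
        · exact hf2) (by
        intro i
        fin_cases i
        · exact ha
        · exact hb
        · exact hc) (by
        intro i j hij
        fin_cases i <;> fin_cases j <;> simp_all))
    rw [score_sub3] at h9
    have h10 : ((sub3 0 L).map (fun u => χ ((![f0, f1, f2] : Fin 3 → List Bool → V) 0 u))).sum =
      ((sub3 0 L).map (fun w => χ (f0 w))).sum := rfl
    have h11 : ((sub3 1 L).map (fun u => χ ((![f0, f1, f2] : Fin 3 → List Bool → V) 1 u))).sum =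
      ((sub3 1 L).map (fun w => χ (f1 w))).sum := rfl
    have h12 : ((sub3 2 L).map (fun u => χ ((![f0, f1, f2] : Fin 3 → List Bool → V) 2 u))).sum =
      ((sub3 2 L).map (fun w => χ (f2 w))).sum := rfl
    rw [h10, h11, h12] at h9
    have hk : (0 : ℚ) < ((N x).card : ℚ) := by
      have : (3 : ℚ) ≤ ((N x).card : ℚ) := by exact_mod_cast h4
      linarith
    have hD0 : (0 : ℚ) ≤ D := sum_nonneg fun v _ => Nat.cast_nonneg _
    have h13 := mul_lt_mul_of_pos_left h9 hk
    refine lt_of_le_of_lt ?_ h13
    rw [mul_left_comm ((N x).card : ℚ) D]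
    refine mul_le_mul_of_nonneg_left ?_ hD0
    have h14 : ((N x).card : ℚ) * (F N χ n (sub3 0 L) x a + F N χ n (sub3 1 L) x b +
        F N χ n (sub3 2 L) x c) ≤ ((N x).card : ℚ) * (((sub3 0 L).map (fun w => χ (f0 w))).sum +
        ((sub3 1 L).map (fun w => χ (f1 w))).sum + ((sub3 2 L).map (fun w => χ (f2 w))).sum) :=
      mul_le_mul_of_nonneg_left (by linarith) hk.le
    nlinarith [h5, h14]
  obtain ⟨x0, hx0⟩ := hne
  have hsum := sum_lt_sum (s := univ) (f := fun x => D * (((N x).card : ℚ) * (emp L * χ x) +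
        (∑ p ∈ N x, F N χ n (sub3 0 L) x p +
        ∑ p ∈ N x, F N χ n (sub3 1 L) x p + ∑ p ∈ N x, F N χ n (sub3 2 L) x p)))
      (g := fun x => ((N x).card : ℚ) * ((L.length : ℚ) * P)) (by
        intro x _
        rcases (N x).eq_empty_or_nonempty with h | h
        · simp [h]
        · exact (key x h).le) ⟨x0, mem_univ _, key x0 hx0⟩
  have e1 : ∀ L', ∑ x, ∑ p ∈ N x, F N χ n L' x p = L'.length * P := by
    intro L'
    rw [swap N hs]
    exact F_sum N hs h3 χ n L'
  rw [← mul_sum, sum_add_distrib, sum_add_distrib, sum_add_distrib, e1, e1, e1, ← sum_mul] at hsum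
  have e2 : ∑ x, ((N x).card : ℚ) * (emp L * χ x) = emp L * P := by
    rw [hP, mul_sum]
    exact sum_congr rfl fun x _ => by ring
  rw [e2] at hsum
  have h2 := len_sub3 L
  have h4 : (L.length : ℚ) = emp L + (sub3 0 L).length + (sub3 1 L).length +
      (sub3 2 L).length := by exact_mod_cast h2
  rw [← hD] at hsum
  rw [h4] at hsum
  nlinarith [hsum]

end Pool.Agent.U875.SW
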